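import Mathlib

/-!
# Spectral radius and essential spectral radius: the abstract argument

`T` is a bounded operator of a Banach space `X`, and `L i` are functionals with
`L i ∘ T = w i • L (s i)`.  If the norms `‖L (s^n i)‖` tend to infinity, if the vectors on which
the `L i` are bounded are dense and if the `L i` separate the points of `X`, then every point of
the spectrum of `T` has modulus at most `‖T - K‖`, for every compact operator `K`.
-/

set_option autoImplicit false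

namespace Pool.Agent.Y283.WC

open Filter Topology Metric Set

variable {X : Type*} [NormedAddCommGroup X] [NormedSpace ℂ X]

/-- the functionals are small, compared with their norms, on compact sets -/
lemma compact_small {L : ℕ → (X →L[ℂ] ℂ)} (hinf : Tendsto (fun n => ‖L n‖) atTop atTop)
    {D : Set X} (hD : Dense D) (hb : ∀ x ∈ D, ∃ M : ℝ, ∀ n, ‖L n x‖ ≤ M)
    {K : Set X} (hK : IsCompact K) {ε : ℝ} (hε : 0 < ε) :
    ∀ᶠ n in atTop, ∀ y ∈ K, ‖L n y‖ ≤ ε * ‖L n‖ := by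
  have hweak : ∀ x : X, ∀ᶠ n in atTop, ‖L n x‖ ≤ ε / 2 * ‖L n‖ := by
    intro x
    obtain ⟨y, hy, hxy⟩ := hD.exists_dist_lt x (show (0:ℝ) < ε / 4 by positivity)
    obtain ⟨M, hM⟩ := hb y hy
    filter_upwards [hinf.eventually_ge_atTop (4 * M / ε)] with n hn
    have h1 : M ≤ ε / 4 * ‖L n‖ := by
      rw [div_le_iff₀ hε] at hn
      linarith
    have h2 : ‖L n (x - y)‖ ≤ ‖L n‖ * (ε / 4) := by
      refine (ContinuousLinearMap.le_opNorm _ _).trans ?_
      apply mul_le_mul_of_nonneg_left _ (norm_nonneg _)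
      rw [← dist_eq_norm]
      exact hxy.le
    have h3 : L n x = L n y + L n (x - y) := by
      rw [← map_add]
      congr 1
      abel
    rw [h3]
    refine (norm_add_le _ _).trans ?_
    have := hM n
    linarith
  obtain ⟨t, -, ht, hcov⟩ := hK.finite_cover_balls (half_pos hε)
  have h1 : ∀ᶠ n in atTop, ∀ x ∈ t, ‖L n x‖ ≤ ε / 2 * ‖L n‖ := by
    rw [eventually_all_finite ht]
    intro x _
    exact hweak x
  filter_upwards [h1] with n hn y hy
  have h2 := hcov hy
  simp only [Set.mem_iUnion, mem_ball, exists_prop] at h2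
  obtain ⟨x, hx, hxy⟩ := h2
  have h3 : L n y = L n x + L n (y - x) := by
    rw [← map_add]
    congr 1
    abel
  rw [h3]
  refine (norm_add_le _ _).trans ?_
  have h4 : ‖L n (y - x)‖ ≤ ‖L n‖ * (ε / 2) := by
    refine (ContinuousLinearMap.le_opNorm _ _).trans ?_
    apply mul_le_mul_of_nonneg_left _ (norm_nonneg _)
    rw [← dist_eq_norm]
    exact hxy.le
  have := hn x hx
  linarith

/-- no eigenvectors for eigenvalues outside the disc of radius `‖T - K‖` -/
lemma no_eig {T K : X →L[ℂ] X} (hK : IsCompactOperator K) {L : ℕ → (X →L[ℂ] ℂ)} {w : ℕ → ℂ}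
    (hT : ∀ n f, L n (T f) = w n * L (n + 1) f)
    (hinf : Tendsto (fun n => ‖L n‖) atTop atTop)
    {D : Set X} (hD : Dense D) (hb : ∀ x ∈ D, ∃ M : ℝ, ∀ n, ‖L n x‖ ≤ M)
    {μ : ℂ} (hμ : ‖T - K‖ < ‖μ‖) {f : X} (hf : T f = μ • f) : L 0 f = 0 := by
  set R := T - K with hR
  obtain ⟨q, hq1, hq2⟩ := exists_between hμ
  have hq0 : 0 < q := (norm_nonneg R).trans_lt hq1
  have hcomp : IsCompact (closure (K '' closedBall 0 1)) :=
    hK.isCompact_closure_image_closedBall 1
  -- the functionals `f ↦ L 0 (T ^ n f)` are multiples of `L n`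
  have hx : ∀ n : ℕ, ∃ c : ℂ, ∀ g, L 0 ((T ^ n) g) = c * L n g := by
    intro n
    induction n with
    | zero => exact ⟨1, by simp⟩
    | succ n ih =>
      obtain ⟨c, hc⟩ := ih
      refine ⟨c * w n, fun g => ?_⟩
      rw [pow_succ]
      show L 0 ((T ^ n) (T g)) = _
      rw [hc, hT, mul_assoc]
  -- the norm of `L n ∘ T`
  have hstep0 : ∀ᶠ n in atTop, ‖(L n).comp T‖ ≤ q * ‖L n‖ := by
    filter_upwards [compact_small hinf hD hb hcomp (sub_pos.2 hq1)] with n hn
    apply ContinuousLinearMap.opNorm_le_bound _ (by positivity)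
    intro g
    have e1 : T g = K g + R g := by
      rw [hR]
      show T g = K g + (T g - K g)
      abel
    have h1 : ‖L n (K g)‖ ≤ (q - ‖R‖) * ‖L n‖ * ‖g‖ := by
      rcases eq_or_ne g 0 with h0 | h0
      · rw [h0]
        simp
      · have hg : 0 < ‖g‖ := norm_pos_iff.2 h0
        have h2 : K (((‖g‖⁻¹ : ℝ) : ℂ) • g) ∈ closure (K '' closedBall 0 1) := by
          apply subset_closure
          refine ⟨_, ?_, rfl⟩
          rw [mem_closedBall_zero_iff, norm_smul, Complex.norm_real, norm_inv, norm_norm]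
          field_simp
          exact le_rfl
        have h3 := hn _ h2
        rw [map_smul, map_smul, norm_smul, Complex.norm_real, norm_inv, norm_norm,
          inv_mul_le_iff₀ hg] at h3
        linarith
    have h2 : ‖L n (R g)‖ ≤ ‖R‖ * ‖L n‖ * ‖g‖ := by
      refine (ContinuousLinearMap.le_opNorm _ _).trans ?_
      have := ContinuousLinearMap.le_opNorm R g
      calc ‖L n‖ * ‖R g‖ ≤ ‖L n‖ * (‖R‖ * ‖g‖) := mul_le_mul_of_nonneg_left this (norm_nonneg _)
        _ = ‖R‖ * ‖L n‖ * ‖g‖ := by ring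
    show ‖L n (T g)‖ ≤ _
    rw [e1, map_add]
    refine (norm_add_le _ _).trans ?_
    calc ‖L n (K g)‖ + ‖L n (R g)‖ ≤ (q - ‖R‖) * ‖L n‖ * ‖g‖ + ‖R‖ * ‖L n‖ * ‖g‖ :=
          add_le_add h1 h2
      _ = q * ‖L n‖ * ‖g‖ := by ring
  obtain ⟨N, hN⟩ := eventually_atTop.mp hstep0
  set u : ℕ → (X →L[ℂ] ℂ) := fun n => (L 0).comp (T ^ n) with hu
  have hstep : ∀ n, N ≤ n → ‖u (n + 1)‖ ≤ q * ‖u n‖ := by
    intro n hn
    obtain ⟨c, hc⟩ := hx n
    have e1 : u n = c • L n := by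
      ext g
      exact hc g
    have e2 : u (n + 1) = c • (L n).comp T := by
      ext g
      show L 0 ((T ^ (n + 1)) g) = c * L n (T g)
      rw [pow_succ]
      exact hc (T g)
    rw [e1, e2, norm_smul, norm_smul]
    have := mul_le_mul_of_nonneg_left (hN n hn) (norm_nonneg c)
    linarith
  have hdecay : ∀ m : ℕ, ‖u (N + m)‖ ≤ q ^ m * ‖u N‖ := by
    intro m
    induction m with
    | zero => simp
    | succ m ih =>
      have h1 := hstep (N + m) (by omega)
      rw [← add_assoc, pow_succ', mul_assoc]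
      exact h1.trans (mul_le_mul_of_nonneg_left ih hq0.le)
  have hTn : ∀ n : ℕ, (T ^ n) f = μ ^ n • f := by
    intro n
    induction n with
    | zero => simp
    | succ n ih =>
      rw [pow_succ']
      show T ((T ^ n) f) = _
      rw [ih, map_smul, hf, smul_smul, pow_succ]
  have hkey : ∀ n : ℕ, ‖μ‖ ^ n * ‖L 0 f‖ ≤ ‖u n‖ * ‖f‖ := by
    intro n
    have h1 : u n f = μ ^ n * L 0 f := by
      show L 0 ((T ^ n) f) = _
      rw [hTn, map_smul, smul_eq_mul]
    rw [← norm_pow, ← norm_mul, ← h1]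
    exact ContinuousLinearMap.le_opNorm _ _
  have hμ0 : 0 < ‖μ‖ := hq0.trans hq2
  set C := ‖u N‖ * ‖f‖ / ‖μ‖ ^ N with hC
  have hfin : ∀ m : ℕ, ‖L 0 f‖ ≤ C * (q / ‖μ‖) ^ m := by
    intro m
    have h1 := hkey (N + m)
    have h2 := mul_le_mul_of_nonneg_right (hdecay m) (norm_nonneg f)
    have h3 : ‖μ‖ ^ (N + m) * ‖L 0 f‖ ≤ q ^ m * ‖u N‖ * ‖f‖ := h1.trans h2
    rw [hC, div_pow, div_mul_div_comm, le_div_iff₀ (by positivity), ← pow_add]
    linarith
  have hlim : Tendsto (fun m : ℕ => C * (q / ‖μ‖) ^ m) atTop (𝓝 (C * 0)) :=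
    (tendsto_pow_atTop_nhds_zero_of_lt_one (by positivity) ((div_lt_one hμ0).2 hq2)).const_mul C
  have h0 : ‖L 0 f‖ ≤ C * 0 := ge_of_tendsto' hlim hfin
  rw [mul_zero] at h0
  exact norm_le_zero_iff.mp h0

/-- a point of the spectrum of `T` outside the disc of radius `‖T - K‖` is an eigenvalue -/
lemma eig_of_mem [CompleteSpace X] {T K : X →L[ℂ] X} (hK : IsCompactOperator K) {μ : ℂ}
    (hμ : ‖T - K‖ < ‖μ‖) (hs : μ ∈ spectrum ℂ T) : ∃ f : X, f ≠ 0 ∧ T f = μ • f := by
  have h1 : IsUnit (algebraMap ℂ (X →L[ℂ] X) μ - (T - K)) := by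
    by_contra h
    have h2 : μ ∈ spectrum ℂ (T - K) := h
    have h3 := spectrum.norm_le_norm_mul_of_mem h2
    have h4 : ‖(1 : X →L[ℂ] X)‖ ≤ 1 := ContinuousLinearMap.norm_id_le
    nlinarith [norm_nonneg (T - K), norm_nonneg (1 : X →L[ℂ] X)]
  obtain ⟨U, hU⟩ := h1
  set S : X →L[ℂ] X := (↑U⁻¹ : X →L[ℂ] X) with hS
  have h2 : (algebraMap ℂ (X →L[ℂ] X) μ - (T - K)) * S = 1 := by
    rw [← hU, hS]
    exact U.mul_inv
  have hC : IsCompactOperator (S * K : X →L[ℂ] X) := hK.clm_comp S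
  have h3 : (1 : ℂ) ∈ spectrum ℂ (S * K) := by
    by_contra h
    rw [spectrum.notMem_iff, map_one] at h
    apply hs
    have e : algebraMap ℂ (X →L[ℂ] X) μ - T =
        (algebraMap ℂ (X →L[ℂ] X) μ - (T - K)) * (1 - S * K) := by
      rw [mul_sub, mul_one, ← mul_assoc, h2, one_mul]
      abel
    show IsUnit (algebraMap ℂ (X →L[ℂ] X) μ - T)
    rw [e, ← hU]
    exact U.isUnit.mul h
  have h4 := (hC.hasEigenvalue_iff_mem_spectrum one_ne_zero).mpr h3
  obtain ⟨f, hf⟩ := h4.exists_hasEigenvector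
  have h5 : (S * K) f = (1 : ℂ) • f := hf.apply_eq_smul
  refine ⟨f, hf.2, ?_⟩
  rw [one_smul] at h5
  have h6 : (algebraMap ℂ (X →L[ℂ] X) μ - (T - K)) ((S * K) f) =
      (algebraMap ℂ (X →L[ℂ] X) μ - (T - K)) f := by rw [h5]
  have h7 : (algebraMap ℂ (X →L[ℂ] X) μ - (T - K)) ((S * K) f) = K f := by
    have h8 := congrArg (fun Q : X →L[ℂ] X => Q (K f)) h2
    exact h8
  rw [h7] at h6
  have h9 : (algebraMap ℂ (X →L[ℂ] X) μ - (T - K)) f = μ • f - (T f - K f) := by
    show (algebraMap ℂ (X →L[ℂ] X) μ) f - (T f - K f) = _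
    rw [Algebra.algebraMap_eq_smul_one]
    rfl
  rw [h9] at h6
  calc T f = K f + (T f - K f) := by abel
    _ = (μ • f - (T f - K f)) + (T f - K f) := by rw [← h6]
    _ = μ • f := by abel

/-- the distance to the compact operators -/
noncomputable def essNorm (T : X →L[ℂ] X) : ℝ := infDist T {K | IsCompactOperator K}

/-- the essential spectral radius -/
noncomputable def essRadius (T : X →L[ℂ] X) : ℝ :=
  ⨅ n : ℕ, essNorm (T ^ (n + 1)) ^ (1 / ((n : ℝ) + 1))

/-- the abstract theorem: every point of the spectrum of `T` has modulus at most the essential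
spectral radius -/
theorem norm_le_essRadius [CompleteSpace X] {T : X →L[ℂ] X} {ι : Type*} {L : ι → (X →L[ℂ] ℂ)}
    {s : ι → ι} {w : ι → ℂ} (hT : ∀ i f, L i (T f) = w i * L (s i) f)
    (hinf : ∀ i, Tendsto (fun n : ℕ => ‖L (s^[n] i)‖) atTop atTop)
    {D : Set X} (hD : Dense D) (hb : ∀ x ∈ D, ∃ M : ℝ, ∀ i, ‖L i x‖ ≤ M)
    (hsep : ∀ x, (∀ i, L i x = 0) → x = 0) {μ : ℂ} (hμ : μ ∈ spectrum ℂ T) :
    ‖μ‖ ≤ essRadius T := by
  -- the powers of `T`
  have hpow : ∀ m : ℕ, ∃ w' : ι → ℂ, ∀ i f, L i ((T ^ m) f) = w' i * L (s^[m] i) f := by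
    intro m
    induction m with
    | zero => exact ⟨fun _ => 1, by simp⟩
    | succ m ih =>
      obtain ⟨w', hw⟩ := ih
      refine ⟨fun i => w' i * w (s^[m] i), fun i f => ?_⟩
      rw [pow_succ]
      show L i ((T ^ m) (T f)) = _
      rw [hw, hT, Function.iterate_succ_apply', mul_assoc]
  have key : ∀ m : ℕ, ∀ K : X →L[ℂ] X, IsCompactOperator K → ‖μ‖ ^ (m + 1) ≤ ‖T ^ (m + 1) - K‖ := by
    intro m K hK
    by_contra hlt
    push Not at hlt
    have h1 : μ ^ (m + 1) ∈ spectrum ℂ (T ^ (m + 1)) := spectrum.pow_mem_pow T (m + 1) hμ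
    rw [← norm_pow] at hlt
    obtain ⟨f, hf0, hf⟩ := eig_of_mem hK hlt h1
    apply hf0
    apply hsep
    intro i
    obtain ⟨w', hw⟩ := hpow (m + 1)
    have h2 : Tendsto (fun n : ℕ => ‖L ((s^[m + 1])^[n] i)‖) atTop atTop := by
      have h3 : ∀ n : ℕ, (s^[m + 1])^[n] i = s^[(m + 1) * n] i := by
        intro n
        rw [Function.iterate_mul]
      simp_rw [h3]
      exact (hinf i).comp (tendsto_id.const_mul_atTop' (Nat.succ_pos m))
    have h4 := no_eig (T := T ^ (m + 1)) hK (L := fun n => L ((s^[m + 1])^[n] i))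
      (w := fun n => w' ((s^[m + 1])^[n] i))
      (fun n f => by
        show L ((s^[m + 1])^[n] i) ((T ^ (m + 1)) f) =
          w' ((s^[m + 1])^[n] i) * L ((s^[m + 1])^[n + 1] i) f
        rw [hw, Function.iterate_succ_apply' (s^[m + 1])])
      h2 hD (fun x hx => by
        obtain ⟨M, hM⟩ := hb x hx
        exact ⟨M, fun n => hM _⟩) hlt hf
    exact h4
  unfold essRadius
  apply le_ciInf
  intro n
  have h1 : ‖μ‖ ^ (n + 1) ≤ essNorm (T ^ (n + 1)) := by
    unfold essNorm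
    refine (le_infDist ⟨0, isCompactOperator_zero⟩).2 ?_
    intro K hK
    rw [dist_eq_norm]
    exact key n K hK
  have h2 : ‖μ‖ = (‖μ‖ ^ (n + 1)) ^ (1 / ((n : ℝ) + 1)) := by
    rw [← Real.rpow_natCast, ← Real.rpow_mul (norm_nonneg _)]
    have h3 : ((n + 1 : ℕ) : ℝ) * (1 / ((n : ℝ) + 1)) = 1 := by
      push_cast
      field_simp
    rw [h3, Real.rpow_one]
  rw [h2]
  exact Real.rpow_le_rpow (by positivity) h1 (by positivity)

/-- the essential spectral radius is at most the spectral radius -/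
theorem essRadius_le [CompleteSpace X] (T : X →L[ℂ] X) :
    ENNReal.ofReal (essRadius T) ≤ spectralRadius ℂ T := by
  have h1 := (spectrum.pow_norm_pow_one_div_tendsto_nhds_spectralRadius T).comp
    (tendsto_add_atTop_nat 1)
  refine ge_of_tendsto' h1 fun n => ?_
  simp only [Function.comp_apply]
  apply ENNReal.ofReal_le_ofReal
  unfold essRadius
  have hbdd : BddBelow (range fun n : ℕ => essNorm (T ^ (n + 1)) ^ (1 / ((n : ℝ) + 1))) := by
    refine ⟨0, ?_⟩
    rintro _ ⟨n, rfl⟩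
    exact Real.rpow_nonneg infDist_nonneg _
  refine (ciInf_le hbdd n).trans ?_
  have h2 : essNorm (T ^ (n + 1)) ≤ ‖T ^ (n + 1)‖ := by
    have h3 : (0 : X →L[ℂ] X) ∈ {K : X →L[ℂ] X | IsCompactOperator K} := isCompactOperator_zero
    have h4 := infDist_le_dist_of_mem (x := T ^ (n + 1)) h3
    rwa [dist_zero_right] at h4
  push_cast
  exact Real.rpow_le_rpow infDist_nonneg h2 (by positivity)

/-- spectral radius and essential spectral radius coincide -/
theorem spectralRadius_eq [CompleteSpace X] {T : X →L[ℂ] X} {ι : Type*} {L : ι → (X →L[ℂ] ℂ)}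
    {s : ι → ι} {w : ι → ℂ} (hT : ∀ i f, L i (T f) = w i * L (s i) f)
    (hinf : ∀ i, Tendsto (fun n : ℕ => ‖L (s^[n] i)‖) atTop atTop)
    {D : Set X} (hD : Dense D) (hb : ∀ x ∈ D, ∃ M : ℝ, ∀ i, ‖L i x‖ ≤ M)
    (hsep : ∀ x, (∀ i, L i x = 0) → x = 0) :
    spectralRadius ℂ T = ENNReal.ofReal (essRadius T) := by
  refine le_antisymm ?_ (essRadius_le T)
  unfold spectralRadius
  refine iSup₂_le fun μ hμ => ?_
  have h1 := norm_le_essRadius hT hinf hD hb hsep hμ
  have h2 : (‖μ‖₊ : ENNReal) = ENNReal.ofReal ‖μ‖ := by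
    rw [← enorm_eq_nnnorm, ofReal_norm_eq_enorm]
  rw [h2]
  exact ENNReal.ofReal_le_ofReal h1

/-- if a power of `T` is compact then the essential spectral radius is zero -/
theorem essRadius_eq_zero (T : X →L[ℂ] X) {n : ℕ} (hn : 1 ≤ n) (hT : IsCompactOperator (T ^ n)) :
    essRadius T = 0 := by
  obtain ⟨m, rfl⟩ : ∃ m, n = m + 1 := ⟨n - 1, by omega⟩
  have hbdd : BddBelow (range fun n : ℕ => essNorm (T ^ (n + 1)) ^ (1 / ((n : ℝ) + 1))) := by
    refine ⟨0, ?_⟩
    rintro _ ⟨n, rfl⟩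
    exact Real.rpow_nonneg infDist_nonneg _
  apply le_antisymm
  · unfold essRadius
    refine (ciInf_le hbdd m).trans ?_
    have h1 : essNorm (T ^ (m + 1)) = 0 := infDist_zero_of_mem hT
    rw [h1, Real.zero_rpow (by positivity)]
  · unfold essRadius
    exact le_ciInf fun n => Real.rpow_nonneg infDist_nonneg _

end Pool.Agent.Y283.WC
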