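import Pool.Agent.Y283.WC.Gen
import Pool.Agent.Helper76.Wco

/-!
# The weighted Hardy spaces `H²(β)` of the unit disc
-/

set_option autoImplicit false

namespace Pool.Agent.Y283.WC

open Filter Topology Metric Set
open scoped InnerProductSpace

/-- square-summable sequences -/
abbrev H2 : Type := ↥(lp (fun _ : ℕ => ℂ) 2)

/-- the weighted Hardy space `H²(β)` of the power series `∑ c n z ^ n` with
`‖c‖² = ∑ |c n|² (β n)² < ∞` is identified with `ℓ²` by `a n = β n * c n`; this is the value at `z`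
of the function with the coordinates `a` -/
noncomputable def bval (β : ℕ → ℝ) (a : H2) (z : ℂ) : ℂ := ∑' n : ℕ, a n / β n * z ^ n

/-- the weights: the evaluations at the points of the disc are bounded, and their norms tend to
infinity at the circle -/
structure Admissible (β : ℕ → ℝ) : Prop where
  pos : ∀ n, 0 < β n
  summable : ∀ r : ℝ, 0 ≤ r → r < 1 → Summable fun n => r ^ n / β n ^ 2
  not_summable : ¬ Summable fun n => 1 / β n ^ 2

section
variable {β : ℕ → ℝ}

lemma nk (h : Admissible β) (w : ℂ) (n : ℕ) :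
    ‖(starRingEnd ℂ) w ^ n / (β n : ℂ)‖ ^ 2 = (‖w‖ ^ 2) ^ n / β n ^ 2 := by
  rw [norm_div, norm_pow, RCLike.norm_conj, Complex.norm_real, Real.norm_eq_abs,
    abs_of_pos (h.pos n), div_pow]
  ring

lemma kb_mem (h : Admissible β) (w : ℂ) (hw : ‖w‖ < 1) :
    Memℓp (fun n : ℕ => (starRingEnd ℂ) w ^ n / (β n : ℂ)) 2 := by
  apply memℓp_gen
  have h1 : ∀ n : ℕ, ‖(starRingEnd ℂ) w ^ n / (β n : ℂ)‖ ^ (2 : ENNReal).toReal =
      (‖w‖ ^ 2) ^ n / β n ^ 2 := by
    intro n
    simp only [ENNReal.toReal_ofNat, Real.rpow_ofNat]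
    exact nk h w n
  simp_rw [h1]
  exact h.summable _ (by positivity) (by nlinarith [norm_nonneg w])

/-- reproducing kernels -/
noncomputable def kb (h : Admissible β) (w : ℂ) (hw : ‖w‖ < 1) : H2 := ⟨_, kb_mem h w hw⟩

lemma kb_apply (h : Admissible β) (w : ℂ) (hw : ‖w‖ < 1) (n : ℕ) :
    kb h w hw n = (starRingEnd ℂ) w ^ n / (β n : ℂ) := rfl

lemma inner_kb (h : Admissible β) (w : ℂ) (hw : ‖w‖ < 1) (a : H2) :
    ⟪kb h w hw, a⟫_ℂ = bval β a w := by
  rw [lp.inner_eq_tsum]
  unfold bval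
  apply tsum_congr
  intro n
  rw [kb_apply, RCLike.inner_apply, map_div₀, map_pow, Complex.conj_conj, Complex.conj_ofReal]
  ring

lemma part (h : Admissible β) (w : ℂ) (hw : ‖w‖ < 1) (y : ℕ → ℂ) (N : ℕ) :
    bval β (∑ n ∈ Finset.range N, lp.single 2 n (y n)) w =
      ∑ n ∈ Finset.range N, y n / β n * w ^ n := by
  rw [← inner_kb h w hw, inner_sum]
  apply Finset.sum_congr rfl
  intro n _
  rw [lp.inner_single_right, kb_apply, RCLike.inner_apply, map_div₀, map_pow, Complex.conj_conj,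
    Complex.conj_ofReal]
  ring

theorem isFS (h : Admissible β) : IsFunctionSpace ℂ H2 (bval β) where
  add f g z hz := by
    rw [mem_ball_zero_iff] at hz
    rw [← inner_kb h z hz, ← inner_kb h z hz, ← inner_kb h z hz, inner_add_right]
  smul c f z hz := by
    rw [mem_ball_zero_iff] at hz
    rw [← inner_kb h z hz, ← inner_kb h z hz, inner_smul_right]
  bounded z hz := by
    rw [mem_ball_zero_iff] at hz
    refine ⟨‖kb h z hz‖, fun f => ?_⟩
    rw [← inner_kb h z hz]
    exact norm_inner_le_norm _ _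
  injective f hf := by
    have hmem : Memℓp (fun n : ℕ => f n / (β n : ℂ) * (1 / 2 : ℂ) ^ n) 2 := by
      apply memℓp_gen
      have h1 : Summable fun n : ℕ => ‖f‖ ^ 2 * ((1 / 4 : ℝ) ^ n / β n ^ 2) :=
        (h.summable (1 / 4) (by norm_num) (by norm_num)).mul_left _
      refine Summable.of_nonneg_of_le (fun n => by positivity) (fun n => ?_) h1
      simp only [ENNReal.toReal_ofNat, Real.rpow_ofNat]
      have h2 : ‖f n‖ ≤ ‖f‖ := lp.norm_apply_le_norm (by norm_num) f n
      rw [norm_mul, norm_div, norm_pow, Complex.norm_real, Real.norm_eq_abs,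
        abs_of_pos (h.pos n)]
      have h3 : ‖(1 / 2 : ℂ)‖ = 1 / 2 := by norm_num
      rw [h3, mul_pow, div_pow, ← pow_mul, mul_comm n 2, pow_mul]
      have h4 : ((1 / 2 : ℝ) ^ 2) = 1 / 4 := by norm_num
      rw [h4]
      have h5 : ‖f n‖ ^ 2 ≤ ‖f‖ ^ 2 := pow_le_pow_left₀ (norm_nonneg _) h2 2
      have h6 : 0 < β n ^ 2 := pow_pos (h.pos n) 2
      calc ‖f n‖ ^ 2 / β n ^ 2 * (1 / 4) ^ n = ‖f n‖ ^ 2 * ((1 / 4) ^ n / β n ^ 2) := by ring
        _ ≤ ‖f‖ ^ 2 * ((1 / 4) ^ n / β n ^ 2) :=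
          mul_le_mul_of_nonneg_right h5 (by positivity)
    have h1 : (⟨_, hmem⟩ : H2) = 0 := by
      apply Pool.Agent.Helper76.Wco.ev_inj
      intro w hw
      have hw2 : w / 2 ∈ ball (0 : ℂ) 1 := by
        rw [mem_ball_zero_iff, norm_div]
        have : ‖(2 : ℂ)‖ = 2 := by norm_num
        rw [this]
        linarith [norm_nonneg w]
      have h2 := hf (w / 2) hw2
      rw [← h2]
      unfold Pool.Agent.Helper76.Hardy.ev bval
      apply tsum_congr
      intro n
      show f n / (β n : ℂ) * (1 / 2 : ℂ) ^ n * w ^ n = _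
      rw [div_pow, div_pow, one_pow]
      ring
    ext n
    have h2 : f n / (β n : ℂ) * (1 / 2 : ℂ) ^ n = 0 := by
      have h3 := congrArg (fun g : H2 => g n) h1
      exact h3
    have h3 : (β n : ℂ) ≠ 0 := by
      exact_mod_cast (h.pos n).ne'
    have h4 : ((1 / 2 : ℂ) ^ n) ≠ 0 := pow_ne_zero _ (by norm_num)
    rcases mul_eq_zero.1 h2 with h5 | h5
    · rcases div_eq_zero_iff.1 h5 with h6 | h6
      · rw [h6]
        rfl
      · exact absurd h6 h3
    · exact absurd h5 h4
  dense := by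
    intro y
    have hs := (lp.hasSum_single (E := fun _ : ℕ => ℂ) (p := 2) (by norm_num) y).tendsto_sum_nat
    refine mem_closure_of_tendsto hs (Filter.Eventually.of_forall fun N => ?_)
    refine ⟨∑ n ∈ Finset.range N, ‖y n‖ / β n, fun z hz => ?_⟩
    rw [mem_ball_zero_iff] at hz
    rw [part h z hz]
    refine (norm_sum_le _ _).trans (Finset.sum_le_sum fun n _ => ?_)
    rw [norm_mul, norm_div, norm_pow, Complex.norm_real, Real.norm_eq_abs, abs_of_pos (h.pos n)]
    have h1 : ‖z‖ ^ n ≤ 1 := pow_le_one₀ (norm_nonneg _) hz.le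
    have h2 : 0 ≤ ‖y n‖ / β n := div_nonneg (norm_nonneg _) (h.pos n).le
    nlinarith
  large M := by
    have h1 := (not_summable_iff_tendsto_nat_atTop_of_nonneg
      (fun n => by have := h.pos n; positivity)).1 h.not_summable
    obtain ⟨N, hN⟩ := (h1.eventually_gt_atTop (M ^ 2 + 1)).exists
    have hc : Continuous fun r : ℝ => ∑ n ∈ Finset.range N, (r ^ 2) ^ n / β n ^ 2 := by
      fun_prop
    have h2 : ∀ᶠ r in 𝓝 (1 : ℝ), M ^ 2 + 1 < ∑ n ∈ Finset.range N, (r ^ 2) ^ n / β n ^ 2 := by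
      apply hc.continuousAt.eventually (lt_mem_nhds _)
      simpa using hN
    obtain ⟨δ, hδ, hball⟩ := Metric.eventually_nhds_iff.1 h2
    refine ⟨1 - δ, by linarith, fun z hz hzr => ?_⟩
    rw [mem_ball_zero_iff] at hz
    have h3 := hball (y := ‖z‖) (by
      rw [Real.dist_eq, abs_lt]
      constructor <;> linarith)
    set f : H2 := ∑ n ∈ Finset.range N, lp.single 2 n (kb h z hz n) with hf
    have h4 : ‖f‖ ^ 2 = ∑ n ∈ Finset.range N, (‖z‖ ^ 2) ^ n / β n ^ 2 := by
      have h5 := lp.norm_sum_single (E := fun _ : ℕ => ℂ) (p := 2) (by norm_num)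
        (fun n => kb h z hz n) (Finset.range N)
      simp only [ENNReal.toReal_ofNat, Real.rpow_ofNat] at h5
      rw [hf, h5]
      apply Finset.sum_congr rfl
      intro n _
      rw [kb_apply, nk h]
    have h5 : bval β f z = ((∑ n ∈ Finset.range N, (‖z‖ ^ 2) ^ n / β n ^ 2 : ℝ) : ℂ) := by
      rw [hf, part h z hz]
      push_cast
      apply Finset.sum_congr rfl
      intro n _
      rw [kb_apply]
      have h6 : (starRingEnd ℂ) z * z = ((‖z‖ ^ 2 : ℝ) : ℂ) := by
        rw [Complex.conj_mul']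
        push_cast
        rfl
      have h7 : (starRingEnd ℂ) z ^ n * z ^ n = ((‖z‖ : ℂ) ^ 2) ^ n := by
        rw [← mul_pow, h6]
        push_cast
        rfl
      rw [← h7]
      ring
    refine ⟨f, ?_⟩
    rw [h5, Complex.norm_real, Real.norm_eq_abs, ← h4, abs_of_nonneg (sq_nonneg _)]
    rw [← h4] at h3
    have h6 := norm_nonneg f
    have h7 : M < ‖f‖ := by
      by_contra hcon
      push Not at hcon
      nlinarith
    have h8 : 0 < ‖f‖ := by
      rcases h6.eq_or_lt with h9 | h9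
      · rw [← h9] at h3
        nlinarith [sq_nonneg M]
      · exact h9
    nlinarith

end

end Pool.Agent.Y283.WC
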