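import Pool.Agent.Y283.WC.Core
import Pool.Agent.Helper321.DW.Ball

/-!
# Weighted composition operators on spaces of functions on the unit ball
-/

set_option autoImplicit false

namespace Pool.Agent.Y283.WC

open Filter Topology Metric Set

/-- `X` is (through `ev`, where `ev f z` is the value of `f` at `z`) a space of functions on the
open unit ball of `E`: the evaluations are linear and bounded and separate the points of `X`, the
bounded functions are dense, and the norms of the evaluations tend to infinity at the boundary -/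
structure IsFunctionSpace (E : Type*) [NormedAddCommGroup E] (X : Type*) [NormedAddCommGroup X]
    [NormedSpace ℂ X] (ev : X → E → ℂ) : Prop where
  add : ∀ f g, ∀ z ∈ ball (0 : E) 1, ev (f + g) z = ev f z + ev g z
  smul : ∀ (c : ℂ) f, ∀ z ∈ ball (0 : E) 1, ev (c • f) z = c * ev f z
  bounded : ∀ z ∈ ball (0 : E) 1, ∃ C : ℝ, ∀ f, ‖ev f z‖ ≤ C * ‖f‖
  injective : ∀ f, (∀ z ∈ ball (0 : E) 1, ev f z = 0) → f = 0
  dense : Dense {f : X | ∃ M : ℝ, ∀ z ∈ ball (0 : E) 1, ‖ev f z‖ ≤ M}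
  large : ∀ M : ℝ, ∃ r < 1, ∀ z ∈ ball (0 : E) 1, r < ‖z‖ → ∃ f : X, M * ‖f‖ < ‖ev f z‖

section
variable {E : Type} [NormedAddCommGroup E] [InnerProductSpace ℂ E] [FiniteDimensional ℂ E]
  {X : Type*} [NormedAddCommGroup X] [NormedSpace ℂ X] {ev : X → E → ℂ}

omit [InnerProductSpace ℂ E] [FiniteDimensional ℂ E] in
/-- the evaluation at a point of the ball -/
noncomputable def evL (h : IsFunctionSpace E X ev) (z : ball (0 : E) 1) : X →L[ℂ] ℂ :=
  LinearMap.mkContinuousOfExistsBound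
    { toFun := fun f => ev f z
      map_add' := fun f g => h.add f g z z.2
      map_smul' := fun c f => h.smul c f z z.2 } (h.bounded z z.2)

omit [InnerProductSpace ℂ E] [FiniteDimensional ℂ E] in
lemma evL_apply (h : IsFunctionSpace E X ev) (z : ball (0 : E) 1) (f : X) :
    evL h z f = ev f z := rfl

lemma orbit (h : IsFunctionSpace E X ev) {φ : E → E} (hφ : DifferentiableOn ℂ φ (ball (0 : E) 1))
    (hm : MapsTo φ (ball (0 : E) 1) (ball (0 : E) 1)) (hfix : ∀ z ∈ ball (0 : E) 1, φ z ≠ z)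
    (z : ball (0 : E) 1) :
    Tendsto (fun n : ℕ => ‖evL h ((hm.restrict φ _ _)^[n] z)‖) atTop atTop := by
  obtain ⟨p, hp, hlim⟩ := Pool.Agent.Helper321.DW.DW_ball hφ hm hfix
  have h1 : ∀ n : ℕ, (((hm.restrict φ _ _)^[n] z : ball (0 : E) 1) : E) = φ^[n] z := by
    intro n
    induction n with
    | zero => rfl
    | succ n ih =>
      rw [Function.iterate_succ_apply', Function.iterate_succ_apply', ← ih]
      rfl
  have h2 : Tendsto (fun n : ℕ => ‖φ^[n] z‖) atTop (𝓝 1) := by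
    have h3 := (hlim z z.2).norm
    rwa [hp] at h3
  rw [Filter.tendsto_atTop]
  intro M
  obtain ⟨r, hr, hM⟩ := h.large M
  filter_upwards [h2.eventually (lt_mem_nhds hr)] with n hn
  rw [← h1 n] at hn
  obtain ⟨f, hf⟩ := hM _ ((hm.restrict φ _ _)^[n] z).2 hn
  rw [← evL_apply h] at hf
  have h3 := ContinuousLinearMap.le_opNorm (evL h ((hm.restrict φ _ _)^[n] z)) f
  have h4 : 0 < ‖f‖ := by
    rw [norm_pos_iff]
    rintro rfl
    simp at hf
  exact (lt_of_mul_lt_mul_right (hf.trans_le h3) h4.le).le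

theorem general [CompleteSpace X] (h : IsFunctionSpace E X ev) {φ : E → E} {ψ : E → ℂ}
    (hφ : DifferentiableOn ℂ φ (ball (0 : E) 1))
    (hm : MapsTo φ (ball (0 : E) 1) (ball (0 : E) 1)) (hfix : ∀ z ∈ ball (0 : E) 1, φ z ≠ z)
    {T : X →L[ℂ] X} (hT : ∀ f, ∀ z ∈ ball (0 : E) 1, ev (T f) z = ψ z * ev f (φ z)) :
    spectralRadius ℂ T = ENNReal.ofReal (essRadius T) := by
  refine spectralRadius_eq (L := evL h) (s := hm.restrict φ _ _) (w := fun z => ψ z)
    (fun z f => hT f z z.2) (orbit h hφ hm hfix) h.dense ?_ ?_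
  · rintro f ⟨M, hM⟩
    exact ⟨M, fun z => hM z z.2⟩
  · intro f hf
    exact h.injective f fun z hz => hf ⟨z, hz⟩

lemma nontriv (h : IsFunctionSpace E X ev) {φ : E → E}
    (hφ : DifferentiableOn ℂ φ (ball (0 : E) 1))
    (hm : MapsTo φ (ball (0 : E) 1) (ball (0 : E) 1)) (hfix : ∀ z ∈ ball (0 : E) 1, φ z ≠ z) :
    Nontrivial X := by
  have h1 := orbit h hφ hm hfix ⟨0, mem_ball_self one_pos⟩
  obtain ⟨n, hn⟩ := (h1.eventually_gt_atTop 0).exists
  by_contra hno
  rw [not_nontrivial_iff_subsingleton] at hno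
  have h2 : evL h ((hm.restrict φ _ _)^[n] ⟨0, mem_ball_self one_pos⟩) = 0 := by
    ext f
    rw [Subsingleton.elim f 0, map_zero, map_zero]
  rw [h2, norm_zero] at hn
  exact lt_irrefl _ hn

theorem quasi [CompleteSpace X] (h : IsFunctionSpace E X ev) {φ : E → E} {ψ : E → ℂ}
    (hφ : DifferentiableOn ℂ φ (ball (0 : E) 1))
    (hm : MapsTo φ (ball (0 : E) 1) (ball (0 : E) 1)) (hfix : ∀ z ∈ ball (0 : E) 1, φ z ≠ z)
    {T : X →L[ℂ] X} (hT : ∀ f, ∀ z ∈ ball (0 : E) 1, ev (T f) z = ψ z * ev f (φ z))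
    (h0 : essRadius T = 0) :
    spectrum ℂ T = {0} ∧ ∀ μ : ℂ, μ ≠ 0 → ∀ f, T f = μ • f → f = 0 := by
  haveI := nontriv h hφ hm hfix
  have h1 := general h hφ hm hfix hT
  rw [h0, ENNReal.ofReal_zero] at h1
  have h2 : ∀ μ ∈ spectrum ℂ T, μ = 0 := by
    intro μ hμ
    have h3 : (‖μ‖₊ : ENNReal) ≤ spectralRadius ℂ T := by
      unfold spectralRadius
      exact le_iSup₂ (f := fun (k : ℂ) (_ : k ∈ spectrum ℂ T) => (‖k‖₊ : ENNReal)) μ hμ
    rw [h1] at h3
    have h4 : ‖μ‖₊ = 0 := by exact_mod_cast le_antisymm h3 bot_le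
    exact nnnorm_eq_zero.1 h4
  have h5 : spectrum ℂ T = {0} := by
    obtain ⟨μ, hμ⟩ := spectrum.nonempty T
    ext ν
    constructor
    · intro hν
      exact h2 ν hν
    · intro hν
      rw [mem_singleton_iff] at hν
      rw [hν, ← h2 μ hμ]
      exact hμ
  refine ⟨h5, fun μ hμ f hf => ?_⟩
  by_contra hne
  have h6 : μ ∈ spectrum ℂ T := by
    rw [spectrum.mem_iff]
    rintro ⟨U, hU⟩
    apply hne
    have h7 : (algebraMap ℂ (X →L[ℂ] X) μ - T) f = 0 := by
      show (algebraMap ℂ (X →L[ℂ] X) μ) f - T f = 0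
      rw [Algebra.algebraMap_eq_smul_one, hf]
      show μ • f - μ • f = 0
      rw [sub_self]
    have h8 := congrArg (fun Q : X →L[ℂ] X => Q f) U.inv_mul
    rw [hU] at h8
    have h9 : (↑U⁻¹ : X →L[ℂ] X) ((algebraMap ℂ (X →L[ℂ] X) μ - T) f) = f := h8
    rw [h7, map_zero] at h9
    exact h9.symm
  exact hμ (h2 μ h6)

end

end Pool.Agent.Y283.WC
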